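import Pool.Agent.H31.SW.Tools

/-!
# MP_52e316_nt, row OU of the board `swl_modules`: the transform outside the main region
-/

set_option autoImplicit false

open NumberField NumberField.InfinitePlace MeasureTheory Set Filter Complex
open scoped Topology

namespace Pool.Agent.H60.SWL

open Pool.Agent.H31.SW
open Pool.Agent.H29.DW (dg Rl lf)

/-- the derivative of the phase function is near `-1` -/
private theorem near {a w : ℂ} (ha : ‖a‖ ≤ 1 / 10000) (hw : ‖w - 1‖ < 2 / 10000) :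
    w ^ 2 - a ^ 2 ≠ 0 ∧ ‖1 / (w ^ 2 - a ^ 2) - 1‖ ≤ 41 / 100000 := by
  have h1 : ‖1 - (w ^ 2 - a ^ 2)‖ ≤ 4001 / 10000000 := by
    have e : 1 - (w ^ 2 - a ^ 2) = a ^ 2 - (w - 1) * ((w - 1) + 2) := by ring
    rw [e]
    have h2 : ‖(w - 1) + 2‖ ≤ 2 / 10000 + 2 := by
      refine (norm_add_le _ _).trans ?_
      rw [Complex.norm_ofNat]
      linarith
    have h3 : ‖a ^ 2‖ ≤ (1 / 10000) ^ 2 := by
      rw [norm_pow]
      exact pow_le_pow_left₀ (norm_nonneg _) ha 2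
    have h4 : ‖(w - 1) * ((w - 1) + 2)‖ ≤ 2 / 10000 * (2 / 10000 + 2) := by
      rw [norm_mul]
      exact mul_le_mul hw.le h2 (norm_nonneg _) (by norm_num)
    have h5 := norm_sub_le (a ^ 2) ((w - 1) * ((w - 1) + 2))
    linarith
  have h2 : 1 - 4001 / 10000000 ≤ ‖w ^ 2 - a ^ 2‖ := by
    have h3 := norm_sub_norm_le (1 : ℂ) (1 - (w ^ 2 - a ^ 2))
    rw [norm_one, sub_sub_cancel] at h3
    linarith
  have h3 : 0 < ‖w ^ 2 - a ^ 2‖ := lt_of_lt_of_le (by norm_num) h2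
  have h4 : w ^ 2 - a ^ 2 ≠ 0 := norm_pos_iff.1 h3
  refine ⟨h4, ?_⟩
  have e : 1 / (w ^ 2 - a ^ 2) - 1 = (1 - (w ^ 2 - a ^ 2)) / (w ^ 2 - a ^ 2) := by
    field_simp
  rw [e, norm_div, div_le_iff₀ h3]
  linarith

theorem pf_OU (hNS : W_NS) (hHU : W_HU) : W_OU := by
  intro k
  obtain ⟨C₀, hC₀, hNS⟩ := hNS k (1 / 10000) (by norm_num)
  refine ⟨C₀ * 20000 ^ k + 4 ^ k, by positivity, ?_⟩
  intro r g G a Λ z hG hg ha0 ha hra hrΛ hcase
  obtain ⟨z', hz'⟩ : ∃ z' : ℂ, z' = pj r z := ⟨_, rfl⟩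
  obtain ⟨hHU1, -, -⟩ := hHU a ha0 ha
  have hrz' : Rl r z' := by rw [hz']; exact Rl_pj r z
  rw [← hz'] at hcase ⊢
  obtain ⟨Ψ, hΨ⟩ : ∃ Ψ : ℂ → ℂ, Ψ = fun w => Λ * hh a w + z' * w := ⟨_, rfl⟩
  have e1 : FF r (fun w => g w * EE (Λ * hh a w)) z = itg r (fun w => g w * EE (Ψ w)) := by
    unfold FF
    refine itg_congr fun w hw => ?_
    rw [← EE_pj r z w hw, ← hz', hΨ, EE_add]
    ring
  rw [e1]
  obtain ⟨X, hX⟩ : ∃ X : ℝ, X = 1 + ‖Λ‖ + ‖z'‖ := ⟨_, rfl⟩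
  rw [← hX]
  have hX0 : 0 < X := by rw [hX]; positivity
  rw [Real.rpow_neg hX0.le, Real.rpow_natCast]
  have hXk : 0 < X ^ k := pow_pos hX0 k
  rw [← div_eq_mul_inv, le_div_iff₀ hXk]
  have hnΛ := norm_nonneg Λ
  have hnz := norm_nonneg z'
  rcases le_or_gt (‖Λ‖ + ‖z'‖) 3 with h3 | h3
  · have h4 : ‖itg r (fun w => g w * EE (Ψ w))‖ ≤ (2 * (1 / 10000) + 8 * (1 / 10000) ^ 2) * G := by
      refine norm_itg_le (w₀ := 1) (by norm_num) hG (fun w => ?_) (fun w hw => ?_)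
      · rw [norm_mul, norm_EE, mul_one]
        exact hg.norm_le hG w
      · rw [hg.eq_zero hw, zero_mul]
    have h5 : X ^ k ≤ 4 ^ k := pow_le_pow_left₀ hX0.le (by rw [hX]; linarith) k
    have h6 : ‖itg r (fun w => g w * EE (Ψ w))‖ ≤ G := by
      refine h4.trans ?_
      norm_num
      linarith
    calc ‖itg r (fun w => g w * EE (Ψ w))‖ * X ^ k ≤ G * 4 ^ k :=
          mul_le_mul h6 h5 hXk.le hG
      _ = 0 + 4 ^ k * G := by ring
      _ ≤ C₀ * 20000 ^ k * G + 4 ^ k * G := add_le_add_left (by positivity) _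
      _ = _ := by ring
  · obtain ⟨p, hp⟩ : ∃ p : ℂ → ℂ, p = fun w => Λ * (-1 / (w ^ 2 - a ^ 2)) + z' := ⟨_, rfl⟩
    have hball : ∀ w ∈ Metric.ball (1 : ℂ) (2 * (1 / 10000)), ‖w - 1‖ < 2 / 10000 := by
      intro w hw
      rw [Metric.mem_ball, dist_eq_norm] at hw
      linarith
    have hder : ∀ w ∈ Metric.ball (1 : ℂ) (2 * (1 / 10000)), HasDerivAt Ψ (p w) w := by
      intro w hw
      have h4 : w ∈ Metric.ball (1 : ℂ) (1 / 50) :=
        Metric.ball_subset_ball (by norm_num) hw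
      have h5 := ((hHU1 w h4).const_mul Λ).add ((hasDerivAt_id w).const_mul z')
      rw [mul_one] at h5
      rw [hΨ, hp]
      exact h5
    have hrl : ∀ w ∈ Metric.ball (1 : ℂ) (2 * (1 / 10000)), Rl r w → Rl r (p w) := by
      intro w _ hr
      rw [hp]
      exact Rl_add (Rl_mul hrΛ (Rl_div (Rl_neg (Rl_one r))
        (Rl_sub (Rl_pow hr 2) (Rl_pow hra 2)))) hrz'
    have hlow : ∀ w ∈ Metric.ball (1 : ℂ) (2 * (1 / 10000)),
        1 / 10000 * (‖Λ‖ + ‖z'‖) ≤ ‖p w‖ := by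
      intro w hw
      obtain ⟨h4, h5⟩ := near ha (hball w hw)
      have e2 : p w = (z' - Λ) - Λ * (1 / (w ^ 2 - a ^ 2) - 1) := by
        rw [hp]
        show Λ * (-1 / (w ^ 2 - a ^ 2)) + z' = _
        ring
      have h6 : ‖Λ * (1 / (w ^ 2 - a ^ 2) - 1)‖ ≤ ‖Λ‖ * (41 / 100000) := by
        rw [norm_mul]
        exact mul_le_mul_of_nonneg_left h5 hnΛ
      have h7 := norm_sub_norm_le (z' - Λ) (Λ * (1 / (w ^ 2 - a ^ 2) - 1))
      rw [← e2] at h7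
      have h8 : ‖z'‖ ≤ ‖z' - Λ‖ + ‖Λ‖ := by
        have := norm_add_le (z' - Λ) Λ
        rwa [sub_add_cancel] at this
      rcases hcase with h9 | h9
      · linarith
      · linarith
    have h4 := hNS r 1 Ψ p g G (1 / 10000 * (‖Λ‖ + ‖z'‖)) hG (by linarith) hder hrl hlow hg
    have h5 : X ^ k ≤ 20000 ^ k * (1 / 10000 * (‖Λ‖ + ‖z'‖)) ^ k := by
      rw [← mul_pow]
      refine pow_le_pow_left₀ hX0.le ?_ k
      rw [hX]
      linarith
    have hP : 0 < (1 / 10000 * (‖Λ‖ + ‖z'‖)) ^ k := by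
      have : 0 < ‖Λ‖ + ‖z'‖ := by linarith
      positivity
    calc ‖itg r (fun w => g w * EE (Ψ w))‖ * X ^ k
        ≤ C₀ * G / (1 / 10000 * (‖Λ‖ + ‖z'‖)) ^ k *
          (20000 ^ k * (1 / 10000 * (‖Λ‖ + ‖z'‖)) ^ k) :=
          mul_le_mul h4 h5 hXk.le (by positivity)
      _ = C₀ * 20000 ^ k * G := by
          field_simp
      _ ≤ C₀ * 20000 ^ k * G + 4 ^ k * G := le_add_of_nonneg_right (by positivity)
      _ = _ := by ring

end Pool.Agent.H60.SWL
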