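import Pool.Agent.H31.SW.TargetsG

/-!
# MP_52e316_nt, row WD of the board `swl_modules`: the inequality of Weyl and van der Corput
-/

set_option autoImplicit false

open NumberField NumberField.InfinitePlace NumberField.Units
  NumberField.Units.dirichletUnitTheorem MeasureTheory Set Filter Complex
open scoped nonZeroDivisors ENNReal

namespace Pool.Agent.H60.SWL

open Pool.Agent.H31.SW
open Pool.Agent.H25.HK Pool.Agent.H23.LB Pool.Agent.H23.LC

open scoped Classical in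
private theorem vdc {A : Type} [AddCommGroup A] (f : A → ℂ) (B : Finset A) (hB : B.Nonempty)
    (V : Finset A) (hV : ∀ a, (∃ b ∈ B, f (a + b) ≠ 0) → a ∈ V) :
    ‖∑' a, f a‖ ^ 2 ≤ (V.card : ℝ) / (B.card : ℝ) *
      ∑ γ ∈ (B ×ˢ B).image (fun q => q.1 - q.2), ‖∑' a, f (a + γ) * (starRingEnd ℂ) (f a)‖ := by
  have hB0 : (0 : ℝ) < B.card := by exact_mod_cast hB.card_pos
  obtain ⟨S, hS⟩ : ∃ S : ℂ, S = ∑' a, f a := ⟨_, rfl⟩
  have h1 : ∀ b ∈ B, ∑ a ∈ V, f (a + b) = S := by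
    intro b hb
    rw [hS, ← Equiv.tsum_eq (Equiv.addRight b) f]
    symm
    refine tsum_eq_sum fun a ha => ?_
    by_contra hne
    exact ha (hV a ⟨b, hb, hne⟩)
  have h2 : ∀ b ∈ B, ∀ b' ∈ B, ∑ a ∈ V, f (a + b) * (starRingEnd ℂ) (f (a + b')) =
      ∑' a, f (a + (b - b')) * (starRingEnd ℂ) (f a) := by
    intro b hb b' _
    rw [← Equiv.tsum_eq (Equiv.addRight b')
      (fun a => f (a + (b - b')) * (starRingEnd ℂ) (f a))]
    have h3 : ∀ a, (fun a => f (a + (b - b')) * (starRingEnd ℂ) (f a)) (Equiv.addRight b' a) =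
        f (a + b) * (starRingEnd ℂ) (f (a + b')) := by
      intro a
      show f (a + b' + (b - b')) * _ = _
      rw [show a + b' + (b - b') = a + b by abel]
      rfl
    rw [tsum_congr h3]
    symm
    refine tsum_eq_sum fun a ha => ?_
    by_contra hne
    exact ha (hV a ⟨b, hb, fun h => hne (by rw [h, zero_mul])⟩)
  -- the sum over the shifts
  have h3 : (B.card : ℂ) * S = ∑ a ∈ V, ∑ b ∈ B, f (a + b) := by
    rw [Finset.sum_comm, Finset.sum_congr rfl h1, Finset.sum_const, nsmul_eq_mul]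
  have h4 : ((∑ a ∈ V, ‖∑ b ∈ B, f (a + b)‖ ^ 2 : ℝ) : ℂ) = ∑ q ∈ B ×ˢ B,
      ∑' a, f (a + (q.1 - q.2)) * (starRingEnd ℂ) (f a) := by
    rw [Finset.sum_product]
    push_cast
    have h5 : ∀ a ∈ V, ((‖∑ b ∈ B, f (a + b)‖ : ℝ) : ℂ) ^ 2 =
        ∑ b ∈ B, ∑ b' ∈ B, f (a + b) * (starRingEnd ℂ) (f (a + b')) := by
      intro a _
      rw [← Complex.mul_conj', map_sum, Finset.sum_mul_sum]
    rw [Finset.sum_congr rfl h5, Finset.sum_comm]
    refine Finset.sum_congr rfl fun b hb => ?_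
    rw [Finset.sum_comm]
    exact Finset.sum_congr rfl fun b' hb' => h2 b hb b' hb'
  obtain ⟨T, hT⟩ : ∃ T : A → ℝ, T = fun γ => ‖∑' a, f (a + γ) * (starRingEnd ℂ) (f a)‖ :=
    ⟨_, rfl⟩
  have hT0 : ∀ γ, 0 ≤ T γ := fun γ => by rw [hT]; exact norm_nonneg _
  have h6 : ∑ a ∈ V, ‖∑ b ∈ B, f (a + b)‖ ^ 2 ≤ ∑ q ∈ B ×ˢ B, T (q.1 - q.2) := by
    have h7 : ‖((∑ a ∈ V, ‖∑ b ∈ B, f (a + b)‖ ^ 2 : ℝ) : ℂ)‖ =
        ∑ a ∈ V, ‖∑ b ∈ B, f (a + b)‖ ^ 2 := by
      rw [Complex.norm_real, Real.norm_of_nonneg (Finset.sum_nonneg fun a _ => sq_nonneg _)]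
    rw [← h7, h4, hT]
    exact norm_sum_le _ _
  have h8 : ∑ q ∈ B ×ˢ B, T (q.1 - q.2) ≤
      (B.card : ℝ) * ∑ γ ∈ (B ×ˢ B).image (fun q => q.1 - q.2), T γ := by
    rw [← Finset.sum_fiberwise_of_maps_to (s := B ×ˢ B)
      (t := (B ×ˢ B).image (fun q => q.1 - q.2)) (g := fun q => q.1 - q.2)
      (fun q hq => Finset.mem_image_of_mem _ hq), Finset.mul_sum]
    refine Finset.sum_le_sum fun γ _ => ?_
    have h9 : ∀ q ∈ (B ×ˢ B).filter (fun q => q.1 - q.2 = γ), T (q.1 - q.2) = T γ := by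
      intro q hq
      rw [(Finset.mem_filter.1 hq).2]
    rw [Finset.sum_congr rfl h9, Finset.sum_const, nsmul_eq_mul]
    refine mul_le_mul_of_nonneg_right ?_ (hT0 γ)
    have h10 : ((B ×ˢ B).filter (fun q => q.1 - q.2 = γ)).card ≤ B.card := by
      refine Finset.card_le_card_of_injOn (fun q => q.1)
        (fun q hq => (Finset.mem_product.1 (Finset.mem_filter.1 hq).1).1) ?_
      intro q hq q' hq' he
      have e1 := (Finset.mem_filter.1 hq).2
      have e2 := (Finset.mem_filter.1 hq').2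
      have he' : q.1 = q'.1 := he
      refine Prod.ext he' ?_
      have : q.1 - q.2 = q'.1 - q'.2 := e1.trans e2.symm
      rw [he'] at this
      exact sub_right_injective this
    exact_mod_cast h10
  have h11 : ‖(B.card : ℂ) * S‖ ^ 2 ≤ (V.card : ℝ) * ∑ a ∈ V, ‖∑ b ∈ B, f (a + b)‖ ^ 2 := by
    rw [h3]
    refine (pow_le_pow_left₀ (norm_nonneg _) (norm_sum_le _ _) 2).trans ?_
    exact sq_sum_le_card_mul_sum_sq
  rw [norm_mul, Complex.norm_natCast, mul_pow] at h11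
  have h12 : (B.card : ℝ) ^ 2 * ‖S‖ ^ 2 ≤ (V.card : ℝ) *
      ((B.card : ℝ) * ∑ γ ∈ (B ×ˢ B).image (fun q => q.1 - q.2), T γ) :=
    h11.trans (mul_le_mul_of_nonneg_left (h6.trans h8) (Nat.cast_nonneg _))
  rw [← hS]
  have h13 : ∀ γ, ‖∑' a, f (a + γ) * (starRingEnd ℂ) (f a)‖ = T γ := fun γ => by rw [hT]
  simp only [h13]
  rw [div_mul_eq_mul_div, le_div_iff₀ hB0]
  refine le_of_mul_le_mul_left (a := (B.card : ℝ)) ?_ hB0
  calc (B.card : ℝ) * (‖S‖ ^ 2 * B.card) = (B.card : ℝ) ^ 2 * ‖S‖ ^ 2 := by ring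
    _ ≤ _ := h12
    _ = _ := by ring

theorem pf_WD : W_WD := by
  classical
  intro K _ _ L F B N hfin hBL hB hN
  obtain ⟨L', hL'⟩ : ∃ L' : AddSubgroup K, ∀ x, x ∈ L' ↔ x ∈ L :=
    ⟨(L : Submodule (𝓞 K) K).toAddSubgroup, fun x => Iff.rfl⟩
  -- transport to the subgroup
  have htr : ∀ G : K → ℂ, ∑' x : {x : K // x ∈ L}, G x = ∑' a : L', G a := by
    intro G
    exact Equiv.tsum_eq (Equiv.subtypeEquivRight fun x => (hL' x).symm) (fun a : L' => G a)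
  have hVfin : {x : K | x ∈ L ∧ ∃ b ∈ B, F (x + b) ≠ 0}.Finite := by
    have h1 : (⋃ b ∈ B, (fun x => x - b) '' {x : K | x ∈ L ∧ F x ≠ 0}).Finite :=
      Set.Finite.biUnion B.finite_toSet fun b _ => hfin.image _
    refine h1.subset ?_
    rintro x ⟨hx, b, hb, hne⟩
    refine Set.mem_biUnion (x := b) hb ⟨x + b, ⟨?_, hne⟩, by simp⟩
    rw [← hL'] at hx ⊢
    exact L'.add_mem hx ((hL' b).2 (hBL b hb))
  obtain ⟨V, hV⟩ : ∃ V : Finset L', ∀ a, a ∈ V ↔ ∃ b ∈ B, F (a + b) ≠ 0 := by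
    have h1 : {a : L' | ∃ b ∈ B, F (a + b) ≠ 0}.Finite := by
      refine Set.Finite.of_finite_image (f := fun a : L' => (a : K)) (hVfin.subset ?_)
        Subtype.val_injective.injOn
      rintro x ⟨a, ha, rfl⟩
      exact ⟨(hL' _).1 a.2, ha⟩
    exact ⟨h1.toFinset, fun a => h1.mem_toFinset⟩
  have hVN : (V.card : ℝ) ≤ N := by
    refine le_trans ?_ hN
    have h1 : V.card = {x : K | x ∈ L ∧ ∃ b ∈ B, F (x + b) ≠ 0}.ncard := by
      have h2 : {x : K | x ∈ L ∧ ∃ b ∈ B, F (x + b) ≠ 0} =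
          (fun a : L' => (a : K)) '' (V : Set L') := by
        ext x
        constructor
        · rintro ⟨hx, h3⟩
          exact ⟨⟨x, (hL' x).2 hx⟩, (hV _).2 h3, rfl⟩
        · rintro ⟨a, ha, rfl⟩
          exact ⟨(hL' _).1 a.2, (hV a).1 ha⟩
      rw [h2, Set.ncard_image_of_injective _ Subtype.val_injective, Set.ncard_coe_finset]
    rw [h1]
  obtain ⟨B', hB'⟩ : ∃ B' : Finset L', B' = B.subtype (· ∈ L') := ⟨_, rfl⟩
  have hBmem : ∀ a : L', a ∈ B' ↔ (a : K) ∈ B := fun a => by rw [hB']; exact Finset.mem_subtype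
  have hBcard : B'.card = B.card := by
    rw [hB', ← Finset.card_map (Function.Embedding.subtype _), Finset.subtype_map_of_mem
      fun b hb => (hL' b).2 (hBL b hb)]
  have hBne : B'.Nonempty := by
    obtain ⟨b, hb⟩ := hB
    exact ⟨⟨b, (hL' b).2 (hBL b hb)⟩, (hBmem _).2 hb⟩
  have hmain := vdc (fun a : L' => F a) B' hBne V (fun a ⟨b, hb, hne⟩ =>
    (hV a).2 ⟨b, (hBmem b).1 hb, hne⟩)
  rw [htr F]
  refine hmain.trans ?_
  rw [hBcard]
  have hB0 : (0 : ℝ) < B.card := by exact_mod_cast hB.card_pos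
  refine mul_le_mul ((div_le_div_iff_of_pos_right hB0).2 hVN) ?_
    (Finset.sum_nonneg fun γ _ => norm_nonneg _)
    (div_nonneg ((Nat.cast_nonneg _).trans hVN) hB0.le)
  have h1 : ∑ γ ∈ (B' ×ˢ B').image (fun q => q.1 - q.2),
      ‖∑' a : L', F ((a + γ : L') : K) * (starRingEnd ℂ) (F a)‖ =
      ∑ γ ∈ ((B' ×ˢ B').image (fun q => q.1 - q.2)).image (fun a : L' => (a : K)),
        ‖∑' x : {x : K // x ∈ L}, dif γ F x‖ := by
    rw [Finset.sum_image fun a _ b _ h => Subtype.val_injective h]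
    refine Finset.sum_congr rfl fun γ _ => ?_
    rw [htr (dif (γ : K) F)]
    rfl
  have h2 : ∑ γ ∈ ((B' ×ˢ B').image (fun q => q.1 - q.2)).image (fun a : L' => (a : K)),
        ‖∑' x : {x : K // x ∈ L}, dif γ F x‖ ≤
      ∑ γ ∈ (B ×ˢ B).image (fun q => q.1 - q.2), ‖∑' x : {x : K // x ∈ L}, dif γ F x‖ := by
    refine Finset.sum_le_sum_of_subset_of_nonneg ?_ (fun γ _ _ => norm_nonneg _)
    intro γ hγ
    rw [Finset.mem_image] at hγ
    obtain ⟨a, ha, rfl⟩ := hγ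
    rw [Finset.mem_image] at ha
    obtain ⟨q, hq, rfl⟩ := ha
    rw [Finset.mem_product] at hq
    rw [Finset.mem_image]
    exact ⟨((q.1 : K), (q.2 : K)), Finset.mem_product.2 ⟨(hBmem _).1 hq.1, (hBmem _).1 hq.2⟩,
      rfl⟩
  have h3 := h1.le.trans h2
  refine le_of_eq_of_le (Finset.sum_congr ?_ fun _ _ => rfl) h3
  ext x
  simp only [Finset.mem_image]

end Pool.Agent.H60.SWL
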